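import Pool.Agent.Y852.SR.Half

/-!
# Pairs of maps preserving the spectral radius of `T - c S`, with `S` of rank at most one

For complex Banach spaces `X`, `Y`, a fixed scalar `c ≠ 0`, a surjective map `φ : 𝓑(X) → 𝓑(Y)` and
an arbitrary map `ψ : 𝓑(X) → 𝓑(Y)` (no linearity, additivity or continuity assumed), the identity
`r(φ(T) - c ψ(S)) = r(T - c S)` for all `T` and for all `S` in a set which contains the operators of
rank at most one holds if and only if `φ` is one of the standard maps `T ↦ α A T A⁻¹ + B` or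
`T ↦ α A T* A⁻¹ + B` and `ψ(S) = c⁻¹ φ(c S)` for all `S` in this set. The case `ψ = φ`, `c = 1` is
the question about differences and `ψ = φ`, `c = -1` the question about sums.
-/

set_option autoImplicit false

namespace Pool.Agent.Results.MP_6989a0_an.PairPreservers

open Pool.Agent.Helper729.SRD Pool.Agent.Y852.SR

variable {X Y : Type*} [NormedAddCommGroup X] [NormedSpace ℂ X] [CompleteSpace X]
  [NormedAddCommGroup Y] [NormedSpace ℂ Y] [CompleteSpace Y]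

omit [CompleteSpace X] [CompleteSpace Y] in
lemma surj_scale {ψ : (X →L[ℂ] X) → (Y →L[ℂ] Y)} (hψ : Function.Surjective ψ) {c : ℂ}
    (hc : c ≠ 0) : Function.Surjective fun S : X →L[ℂ] X => c • ψ (c⁻¹ • S) := by
  intro R
  obtain ⟨S, hS⟩ := hψ (c⁻¹ • R)
  refine ⟨c • S, ?_⟩
  simp only
  rw [smul_smul c⁻¹ c S, inv_mul_cancel₀ hc, one_smul, hS, smul_smul, mul_inv_cancel₀ hc, one_smul]

lemma set_iff (c : ℂ) (hc : c ≠ 0) (s : Set (X →L[ℂ] X))
    (hs : ∀ (f : StrongDual ℂ X) (x : X), f.smulRight x ∈ s)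
    (φ ψ : (X →L[ℂ] X) → (Y →L[ℂ] Y)) :
    (Function.Surjective φ ∧
      ∀ T, ∀ S ∈ s, spectralRadius ℂ (φ T - c • ψ S) = spectralRadius ℂ (T - c • S)) ↔
    ((∃ B : Y →L[ℂ] Y, IsStandard φ B) ∧ ∀ S ∈ s, ψ S = c⁻¹ • φ (c • S)) := by
  constructor
  · rintro ⟨hφ, h⟩
    set Ψ : (X →L[ℂ] X) → (Y →L[ℂ] Y) := fun S => c • ψ (c⁻¹ • S) with hΨ
    have hp : HalfPair {S | c⁻¹ • S ∈ s} φ Ψ := by
      refine ⟨hφ, fun f x => ?_, fun T S hS => ?_⟩
      · show c⁻¹ • f.smulRight x ∈ s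
        rw [← smulRight_smul']
        exact hs f _
      · have h1 := congrArg ENNReal.toReal (h T (c⁻¹ • S) hS)
        rw [smul_smul, mul_inv_cancel₀ hc, one_smul] at h1
        exact h1
    obtain ⟨h1, h2⟩ := hp.eq_of
    refine ⟨(q1 φ).1 ⟨hφ, fun T S => specRad_eq_of_sr (h1 T S)⟩, fun S hS => ?_⟩
    have h3 : c⁻¹ • (c • S) = S := by rw [smul_smul, inv_mul_cancel₀ hc, one_smul]
    have h4 := h2 (c • S) (by show c⁻¹ • (c • S) ∈ s; rw [h3]; exact hS)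
    simp only [hΨ] at h4
    rw [h3] at h4
    rw [← h4, smul_smul, inv_mul_cancel₀ hc, one_smul]
  · rintro ⟨hB, hψ⟩
    obtain ⟨h1, h2⟩ := (q1 φ).2 hB
    refine ⟨h1, fun T S hS => ?_⟩
    rw [hψ S hS, smul_smul, mul_inv_cancel₀ hc, one_smul, h2]

lemma pair_iff (c : ℂ) (hc : c ≠ 0) (φ ψ : (X →L[ℂ] X) → (Y →L[ℂ] Y)) :
    ((Function.Surjective φ ∨ Function.Surjective ψ) ∧
      ∀ T S : X →L[ℂ] X, spectralRadius ℂ (φ T - c • ψ S) = spectralRadius ℂ (T - c • S)) ↔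
    ((∃ B : Y →L[ℂ] Y, IsStandard φ B) ∧ ∀ S : X →L[ℂ] X, ψ S = c⁻¹ • φ (c • S)) := by
  constructor
  · rintro ⟨hs, h⟩
    have hsφ : Function.Surjective φ := by
      rcases hs with hs | hs
      · exact hs
      · set Ψ : (X →L[ℂ] X) → (Y →L[ℂ] Y) := fun S => c • ψ (c⁻¹ • S) with hΨ
        have hp : HalfPair Set.univ Ψ φ := by
          refine ⟨surj_scale hs hc, fun f x => Set.mem_univ _, fun T S _ => ?_⟩
          have h1 := congrArg ENNReal.toReal (h S (c⁻¹ • T))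
          rw [smul_smul, mul_inv_cancel₀ hc, one_smul] at h1
          rw [sr_sub_comm, sr_sub_comm T S]
          exact h1
        have hE : φ = Ψ := funext fun S => hp.eq_of.2 S (Set.mem_univ _)
        rw [hE]
        exact surj_scale hs hc
    obtain ⟨h1, h2⟩ := (set_iff c hc Set.univ (fun _ _ => Set.mem_univ _) φ ψ).1
      ⟨hsφ, fun T S _ => h T S⟩
    exact ⟨h1, fun S => h2 S (Set.mem_univ _)⟩
  · rintro ⟨h1, h2⟩
    obtain ⟨h3, h4⟩ := (set_iff c hc Set.univ (fun _ _ => Set.mem_univ _) φ ψ).2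
      ⟨h1, fun S _ => h2 S⟩
    exact ⟨Or.inl h3, fun T S => h4 T S (Set.mem_univ _)⟩

omit [CompleteSpace X] [CompleteSpace Y] in
lemma standard_zero {φ : (X →L[ℂ] X) → (Y →L[ℂ] Y)} {B : Y →L[ℂ] Y} (h : IsStandard φ B) :
    φ 0 = B := by
  obtain ⟨α, _, h⟩ := h
  ext y
  rcases h with ⟨A, hA⟩ | ⟨A, hA⟩ | ⟨_, A, hA⟩ | ⟨_, A, hA⟩ <;> rw [hA] <;> simp

omit [CompleteSpace X] [CompleteSpace Y] in
lemma standard_smul {φ : (X →L[ℂ] X) → (Y →L[ℂ] Y)} (h : IsStandard φ 0) (c : ℝ)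
    (T : X →L[ℂ] X) : φ ((c : ℂ) • T) = (c : ℂ) • φ T := by
  obtain ⟨α, _, h⟩ := h
  ext y
  have e : ((c : ℂ) • φ T) y = (c : ℂ) • φ T y := rfl
  rcases h with ⟨A, hA⟩ | ⟨A, hA⟩ | ⟨_, A, hA⟩ | ⟨_, A, hA⟩
  · rw [e, hA, hA]
    have e2 : ((c : ℂ) • T) (A.symm y) = (c : ℂ) • T (A.symm y) := rfl
    have e3 : (0 : Y →L[ℂ] Y) y = 0 := rfl
    rw [e2, e3, add_zero, add_zero, map_smul, smul_comm]
  · rw [e, hA, hA]
    have e2 : ((c : ℂ) • T) (A.symm y) = (c : ℂ) • T (A.symm y) := rfl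
    have e3 : (0 : Y →L[ℂ] Y) y = 0 := rfl
    rw [e2, e3, add_zero, add_zero, map_smulₛₗ, Complex.conj_ofReal, smul_comm]
  · rw [e, hA, hA]
    have e3 : (0 : Y →L[ℂ] Y) y = 0 := rfl
    rw [e3, add_zero, add_zero, ContinuousLinearMap.comp_smul, map_smul, smul_comm]
  · rw [e, hA, hA]
    have e3 : (0 : Y →L[ℂ] Y) y = 0 := rfl
    rw [e3, add_zero, add_zero, ContinuousLinearMap.comp_smul, map_smulₛₗ, Complex.conj_ofReal,
      smul_comm]

/-- **Preservers of the spectral radius of `T - c S`, for pairs of maps and `S` of rank `≤ 1`.**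
Here `f.smulRight x` is the operator `y ↦ f(y) x`.

(1) Let `c ≠ 0` be a complex number, let `s` be a set of operators which contains all operators
`y ↦ f(y) x`, and let `φ, ψ : 𝓑(X) → 𝓑(Y)` be arbitrary maps. Then `φ` is surjective and
`r(φ(T) - c ψ(S)) = r(T - c S)` for all `T ∈ 𝓑(X)` and all `S ∈ s` if and only if `φ` is a standard
map (for some `B`) and `ψ(S) = c⁻¹ φ(c S)` for all `S ∈ s`.

(2) If the identity holds for all `T` and `S`, then it is enough that one of `φ`, `ψ` is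
surjective.

(3) For `ψ = φ` and real `c` different from `0` and `1` these are exactly the standard maps with
`B = 0` (`c = -1` is the question about sums; `c = 1` in (1) is the question about
differences). -/
theorem result {X Y : Type*} [NormedAddCommGroup X] [NormedSpace ℂ X] [CompleteSpace X]
    [NormedAddCommGroup Y] [NormedSpace ℂ Y] [CompleteSpace Y] :
    (∀ c : ℂ, c ≠ 0 → ∀ s : Set (X →L[ℂ] X),
      (∀ (f : StrongDual ℂ X) (x : X), f.smulRight x ∈ s) →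
      ∀ φ ψ : (X →L[ℂ] X) → (Y →L[ℂ] Y),
      ((Function.Surjective φ ∧
        ∀ T, ∀ S ∈ s, spectralRadius ℂ (φ T - c • ψ S) = spectralRadius ℂ (T - c • S)) ↔
      ((∃ B : Y →L[ℂ] Y, IsStandard φ B) ∧ ∀ S ∈ s, ψ S = c⁻¹ • φ (c • S)))) ∧
    (∀ c : ℂ, c ≠ 0 → ∀ φ ψ : (X →L[ℂ] X) → (Y →L[ℂ] Y),
      (((Function.Surjective φ ∨ Function.Surjective ψ) ∧
        ∀ T S : X →L[ℂ] X, spectralRadius ℂ (φ T - c • ψ S) = spectralRadius ℂ (T - c • S)) ↔
      ((∃ B : Y →L[ℂ] Y, IsStandard φ B) ∧ ∀ S : X →L[ℂ] X, ψ S = c⁻¹ • φ (c • S)))) ∧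
    (∀ c : ℝ, c ≠ 0 → c ≠ 1 → ∀ s : Set (X →L[ℂ] X),
      (∀ (f : StrongDual ℂ X) (x : X), f.smulRight x ∈ s) →
      ∀ φ : (X →L[ℂ] X) → (Y →L[ℂ] Y),
      ((Function.Surjective φ ∧
        ∀ T, ∀ S ∈ s, spectralRadius ℂ (φ T - (c : ℂ) • φ S) =
          spectralRadius ℂ (T - (c : ℂ) • S)) ↔ IsStandard φ 0)) := by
  refine ⟨fun c hc s hs φ ψ => set_iff c hc s hs φ ψ, fun c hc φ ψ => pair_iff c hc φ ψ,
    fun c hc hc1 s hs φ => ?_⟩
  have hc' : (c : ℂ) ≠ 0 := by exact_mod_cast hc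
  have h0s : (0 : X →L[ℂ] X) ∈ s := by
    have h1 := hs 0 0
    have h2 : (0 : StrongDual ℂ X).smulRight (0 : X) = 0 := by
      ext y
      simp
    rwa [h2] at h1
  constructor
  · rintro ⟨hφ, h⟩
    obtain ⟨⟨B, hB⟩, h1⟩ := (set_iff (c : ℂ) hc' s hs φ φ).1 ⟨hφ, h⟩
    have h2 := h1 0 h0s
    rw [smul_zero, standard_zero hB] at h2
    have h3 : ((c : ℂ) - 1) • B = 0 := by
      have h4 : (c : ℂ) • B = B := by
        conv_lhs => rw [h2]
        rw [smul_smul, mul_inv_cancel₀ hc', one_smul]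
      rw [sub_smul, one_smul, h4, sub_self]
    have h5 : (c : ℂ) - 1 ≠ 0 := by
      intro h6
      apply hc1
      exact_mod_cast (sub_eq_zero.1 h6)
    rw [(smul_eq_zero.1 h3).resolve_left h5] at hB
    exact hB
  · intro h
    exact (set_iff (c : ℂ) hc' s hs φ φ).2 ⟨⟨0, h⟩, fun S _ => by
      rw [standard_smul h, smul_smul, inv_mul_cancel₀ hc', one_smul]⟩

end Pool.Agent.Results.MP_6989a0_an.PairPreservers
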